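import Pool.Agent.W555.RG

/-!
A completeness criterion: a metric on a vector space that is bounded below by a positive multiple
of the flat metric on every slab `|ρ x| ≤ R`, where `ρ` is a linear form of gradient bounded by a
constant, is complete.
-/

set_option autoImplicit false

namespace Pool.Agent.Y671.BH

open scoped ContDiff Topology
open Pool.Agent.W555.RG

variable {V : Type} [NormedAddCommGroup V] [NormedSpace ℝ V]

/-- length lower bound when the form is bounded below along the curve -/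
theorem length_ge_of [FiniteDimensional ℝ V] (h : RMetric V) {c : ℝ} (hc : 0 ≤ c)
    (hcont : ∀ γ : ℝ → V, ContDiff ℝ 1 γ →
      Continuous fun s => h.form (γ s) (deriv γ s) (deriv γ s))
    {γ : ℝ → V} (hγ : ContDiff ℝ 1 γ)
    (hlow : ∀ s ∈ Set.Icc (0 : ℝ) 1, c ^ 2 * ‖deriv γ s‖ ^ 2 ≤ h.form (γ s) (deriv γ s) (deriv γ s)) :
    c * ‖γ 1 - γ 0‖ ≤ h.length γ := by
  have hd : Continuous (deriv γ) := hγ.continuous_deriv le_rfl
  have hint : ∫ s in (0 : ℝ)..1, deriv γ s = γ 1 - γ 0 :=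
    intervalIntegral.integral_deriv_eq_sub
      (fun s _ => (hγ.differentiable (by norm_num)).differentiableAt)
      (hd.intervalIntegrable _ _)
  rw [← hint]
  unfold RMetric.length
  calc c * ‖∫ s in (0 : ℝ)..1, deriv γ s‖
      ≤ c * ∫ s in (0 : ℝ)..1, ‖deriv γ s‖ := by
        gcongr
        exact intervalIntegral.norm_integral_le_integral_norm (by norm_num)
    _ = ∫ s in (0 : ℝ)..1, c * ‖deriv γ s‖ := by
        rw [intervalIntegral.integral_const_mul]
    _ ≤ _ := by
        apply intervalIntegral.integral_mono_on (by norm_num)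
        · exact (continuous_const.mul hd.norm).intervalIntegrable _ _
        · exact (Real.continuous_sqrt.comp (hcont γ hγ)).intervalIntegrable _ _
        · intro s hs
          apply Real.le_sqrt_of_sq_le
          calc (c * ‖deriv γ s‖) ^ 2 = c ^ 2 * ‖deriv γ s‖ ^ 2 := by ring
            _ ≤ _ := hlow s hs

/-- the coordinate `ρ` moves at most by the length -/
theorem coord_le (h : RMetric V) (ρ : V →L[ℝ] ℝ) {a : ℝ} (ha : 0 < a)
    (hρ : ∀ x v, a ^ 2 * (ρ v) ^ 2 ≤ h.form x v v)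
    (hcont : ∀ γ : ℝ → V, ContDiff ℝ 1 γ →
      Continuous fun s => h.form (γ s) (deriv γ s) (deriv γ s))
    {γ : ℝ → V} (hγ : ContDiff ℝ 1 γ) {s : ℝ} (hs : s ∈ Set.Icc (0 : ℝ) 1) :
    a * |ρ (γ s) - ρ (γ 0)| ≤ h.length γ := by
  have hd : Continuous (deriv γ) := hγ.continuous_deriv le_rfl
  have hder : ∀ u, HasDerivAt (fun u => ρ (γ u)) (ρ (deriv γ u)) u := fun u =>
    (ρ.hasFDerivAt.comp_hasDerivAt u (hγ.differentiable (by norm_num)).differentiableAt.hasDerivAt)
  have hdc : Continuous fun u => ρ (deriv γ u) := ρ.continuous.comp hd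
  have hint : ∫ u in (0 : ℝ)..s, ρ (deriv γ u) = ρ (γ s) - ρ (γ 0) :=
    intervalIntegral.integral_eq_sub_of_hasDerivAt (fun u _ => hder u)
      (hdc.intervalIntegrable _ _)
  have hsq : Continuous fun u => Real.sqrt (h.form (γ u) (deriv γ u) (deriv γ u)) :=
    Real.continuous_sqrt.comp (hcont γ hγ)
  rw [← hint]
  calc a * |∫ u in (0 : ℝ)..s, ρ (deriv γ u)|
      ≤ a * ∫ u in (0 : ℝ)..s, |ρ (deriv γ u)| := by
        gcongr
        exact intervalIntegral.abs_integral_le_integral_abs hs.1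
    _ = ∫ u in (0 : ℝ)..s, a * |ρ (deriv γ u)| := by
        rw [intervalIntegral.integral_const_mul]
    _ ≤ ∫ u in (0 : ℝ)..s, Real.sqrt (h.form (γ u) (deriv γ u) (deriv γ u)) := by
        apply intervalIntegral.integral_mono_on hs.1
        · exact (continuous_const.mul hdc.abs).intervalIntegrable _ _
        · exact hsq.intervalIntegrable _ _
        · intro u _
          apply Real.le_sqrt_of_sq_le
          calc (a * |ρ (deriv γ u)|) ^ 2 = a ^ 2 * (ρ (deriv γ u)) ^ 2 := by
                rw [mul_pow, sq_abs]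
            _ ≤ _ := hρ _ _
    _ ≤ h.length γ := by
        unfold RMetric.length
        apply intervalIntegral.integral_mono_interval le_rfl hs.1 hs.2
        · exact Filter.Eventually.of_forall fun u => Real.sqrt_nonneg _
        · exact hsq.intervalIntegrable _ _

/-- **Completeness criterion.** -/
theorem isComplete_of_slabs [FiniteDimensional ℝ V] (h : RMetric V) (ρ : V →L[ℝ] ℝ)
    {a : ℝ} (ha : 0 < a) (hρ : ∀ x v, a ^ 2 * (ρ v) ^ 2 ≤ h.form x v v)
    (hlow : ∀ R : ℝ, ∃ c : ℝ, 0 < c ∧ ∀ x, |ρ x| ≤ R → ∀ v, c ^ 2 * ‖v‖ ^ 2 ≤ h.form x v v)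
    (K : V → ℝ) (hK : Continuous K) (hup : ∀ x v, h.form x v v ≤ K x * ‖v‖ ^ 2)
    (hcont : ∀ γ : ℝ → V, ContDiff ℝ 1 γ →
      Continuous fun s => h.form (γ s) (deriv γ s) (deriv γ s)) : h.IsComplete := by
  intro s hs
  -- a near-minimizing path
  have hpath : ∀ x y : V, ∀ ε : ℝ, h.dist x y < ε →
      ∃ γ : ℝ → V, ContDiff ℝ 1 γ ∧ γ 0 = x ∧ γ 1 = y ∧ h.length γ < ε := by
    intro x y ε hlt
    have hne : {L | ∃ γ : ℝ → V, ContDiff ℝ 1 γ ∧ γ 0 = x ∧ γ 1 = y ∧ L = h.length γ}.Nonempty :=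
      ⟨_, fun s => x + s • (y - x), by fun_prop, by simp, by simp, rfl⟩
    obtain ⟨L, ⟨γ, h1, h2, h3, rfl⟩, h4⟩ := exists_lt_of_csInf_lt hne hlt
    exact ⟨γ, h1, h2, h3, h4⟩
  -- all but finitely many terms in one slab
  obtain ⟨N0, hN0⟩ := hs 1 one_pos
  set R0 : ℝ := |ρ (s N0)| + 1 / a with hR0
  have hslab : ∀ n, N0 ≤ n → |ρ (s n)| ≤ R0 := by
    intro n hn
    obtain ⟨γ, h1, h2, h3, h4⟩ := hpath _ _ _ (hN0 N0 n le_rfl hn)
    have h5 := coord_le h ρ ha hρ hcont h1 (s := 1) ⟨by norm_num, le_rfl⟩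
    rw [h2, h3] at h5
    have h6 : |ρ (s n) - ρ (s N0)| ≤ 1 / a := by
      rw [le_div_iff₀ ha, mul_comm]; linarith
    have h7 : |ρ (s n)| ≤ |ρ (s n) - ρ (s N0)| + |ρ (s N0)| := by
      have := abs_add_le (ρ (s n) - ρ (s N0)) (ρ (s N0))
      simpa using this
    rw [hR0]; linarith
  obtain ⟨c, hc, hcl⟩ := hlow (R0 + 1 / a)
  -- the sequence is Cauchy in norm
  have hcau : CauchySeq s := by
    rw [Metric.cauchySeq_iff]
    intro ε hε
    obtain ⟨N, hN⟩ := hs (min (c * ε) 1) (lt_min (by positivity) one_pos)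
    refine ⟨max N N0, fun m hm n hn => ?_⟩
    have hm1 : N ≤ m := (le_max_left _ _).trans hm
    have hm2 : N0 ≤ m := (le_max_right _ _).trans hm
    have hn1 : N ≤ n := (le_max_left _ _).trans hn
    obtain ⟨γ, h1, h2, h3, h4⟩ := hpath _ _ _ (hN m n hm1 hn1)
    have h5 : ∀ u ∈ Set.Icc (0 : ℝ) 1, |ρ (γ u)| ≤ R0 + 1 / a := by
      intro u hu
      have h6 := coord_le h ρ ha hρ hcont h1 hu
      have h7 : |ρ (γ u) - ρ (γ 0)| ≤ 1 / a := by
        rw [le_div_iff₀ ha, mul_comm]
        have := h4.le.trans (min_le_right _ _)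
        linarith
      have h8 : |ρ (γ u)| ≤ |ρ (γ u) - ρ (γ 0)| + |ρ (γ 0)| := by
        have := abs_add_le (ρ (γ u) - ρ (γ 0)) (ρ (γ 0))
        simpa using this
      have h9 := hslab m hm2
      rw [h2] at h7 h8
      linarith
    have h6 := length_ge_of h hc.le hcont h1 (fun u hu => hcl _ (h5 u hu) _)
    rw [h2, h3, norm_sub_rev] at h6
    rw [dist_eq_norm]
    have : c * ‖s m - s n‖ < c * ε := by
      have := h4.trans_le (min_le_left _ _)
      linarith
    exact lt_of_mul_lt_mul_left this hc.le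
  have : CompleteSpace V := FiniteDimensional.complete ℝ V
  obtain ⟨q, hq⟩ := cauchySeq_tendsto_of_complete hcau
  refine ⟨q, ?_⟩
  have : ProperSpace V := FiniteDimensional.proper ℝ V
  obtain ⟨C₀, hC⟩ := (isCompact_closedBall q (1 : ℝ)).bddAbove_image hK.continuousOn
  obtain ⟨C, hC', hC0⟩ : ∃ C : ℝ, (∀ y ∈ Metric.closedBall q (1 : ℝ), K y ≤ C) ∧ 0 ≤ C :=
    ⟨max C₀ 0, fun y hy => (hC (Set.mem_image_of_mem K hy)).trans (le_max_left _ _),
      le_max_right _ _⟩
  have hge0 : ∀ x y : V, 0 ≤ h.dist x y := by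
    intro x y
    apply Real.sInf_nonneg
    rintro L ⟨γ, -, -, -, rfl⟩
    exact h.length_nonneg γ
  have hub : ∀ᶠ n in Filter.atTop, h.dist (s n) q ≤ Real.sqrt C * ‖s n - q‖ := by
    have hball : ∀ᶠ n in Filter.atTop, s n ∈ Metric.closedBall q (1 : ℝ) :=
      hq.eventually (Metric.closedBall_mem_nhds q one_pos)
    filter_upwards [hball] with n hn
    have hγ : ContDiff ℝ 1 (fun τ : ℝ => s n + τ • (q - s n)) := by fun_prop
    have hle : h.dist (s n) q ≤ h.length (fun τ : ℝ => s n + τ • (q - s n)) := by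
      apply csInf_le
      · exact ⟨0, by rintro L ⟨γ, -, -, -, rfl⟩; exact h.length_nonneg γ⟩
      · exact ⟨_, hγ, by simp, by simp, rfl⟩
    refine hle.trans ?_
    have hder : ∀ τ : ℝ, deriv (fun τ : ℝ => s n + τ • (q - s n)) τ = q - s n := by
      intro τ
      have : HasDerivAt (fun τ : ℝ => s n + τ • (q - s n)) ((1 : ℝ) • (q - s n)) τ :=
        ((hasDerivAt_id τ).smul_const (q - s n)).const_add (s n)
      rw [this.deriv, one_smul]
    unfold RMetric.length
    calc ∫ τ in (0 : ℝ)..1, Real.sqrt (h.form (s n + τ • (q - s n))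
            (deriv (fun τ : ℝ => s n + τ • (q - s n)) τ)
            (deriv (fun τ : ℝ => s n + τ • (q - s n)) τ))
        ≤ ∫ _ in (0 : ℝ)..1, Real.sqrt C * ‖s n - q‖ := by
          apply intervalIntegral.integral_mono_on (by norm_num)
          · exact (Real.continuous_sqrt.comp (hcont _ hγ)).intervalIntegrable _ _
          · exact continuous_const.intervalIntegrable _ _
          · intro τ hτ
            rw [hder]
            have hmem : s n + τ • (q - s n) ∈ Metric.closedBall q (1 : ℝ) :=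
              (convex_closedBall q (1 : ℝ)).add_smul_sub_mem hn
                (Metric.mem_closedBall_self zero_le_one) hτ
            have h1 : h.form (s n + τ • (q - s n)) (q - s n) (q - s n) ≤ C * ‖s n - q‖ ^ 2 := by
              refine (hup _ _).trans ?_
              rw [norm_sub_rev q (s n)]
              have := hC' _ hmem
              gcongr
            calc Real.sqrt (h.form (s n + τ • (q - s n)) (q - s n) (q - s n))
                ≤ Real.sqrt (C * ‖s n - q‖ ^ 2) := Real.sqrt_le_sqrt h1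
              _ = Real.sqrt C * ‖s n - q‖ := by
                rw [Real.sqrt_mul hC0, Real.sqrt_sq (norm_nonneg _)]
      _ = Real.sqrt C * ‖s n - q‖ := by simp
  have hlim : Filter.Tendsto (fun n => Real.sqrt C * ‖s n - q‖) Filter.atTop (𝓝 0) := by
    have : Filter.Tendsto (fun n => ‖s n - q‖) Filter.atTop (𝓝 0) :=
      tendsto_iff_norm_sub_tendsto_zero.mp hq
    simpa using this.const_mul (Real.sqrt C)
  exact squeeze_zero' (Filter.Eventually.of_forall fun n => hge0 _ _) hub hlim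

end Pool.Agent.Y671.BH
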